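import Pool.Agent.MP_e16cda_ag.Sums

-- part MP_e16cda_ag.Uniq
section

set_option autoImplicit false

namespace Pool.Agent.MP_e16cda_ag

open Filter Topology

/-- finitely many members of a family inside a finitely generated algebra of functions separate
as much as the whole family -/
theorem finite_sep {Ω ι : Type} (G : Set (Ω → ℂ)) (hG : G.Finite) (f : ι → Ω → ℂ)
    (hf : ∀ k, f k ∈ Algebra.adjoin ℂ G) :
    ∃ K : Finset ι, ∀ x y : Ω, (∀ k ∈ K, f k x = f k y) → ∀ k, f k x = f k y := by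
  classical
  let l : (Ω → ℂ) →ₐ[ℂ] (Ω × Ω → ℂ) := AlgHom.pi (fun p => Pi.evalAlgHom ℂ _ p.1)
  let r : (Ω → ℂ) →ₐ[ℂ] (Ω × Ω → ℂ) := AlgHom.pi (fun p => Pi.evalAlgHom ℂ _ p.2)
  let T : Subalgebra ℂ (Ω × Ω → ℂ) := Algebra.adjoin ℂ (l '' G ∪ r '' G)
  have hT : T.FG := Subalgebra.fg_def.2 ⟨_, (hG.image l).union (hG.image r), rfl⟩
  have : IsNoetherianRing T := isNoetherianRing_of_fg hT
  have hl : ∀ k, l (f k) ∈ T := by
    intro k
    have : l (f k) ∈ (Algebra.adjoin ℂ G).map l := ⟨f k, hf k, rfl⟩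
    rw [AlgHom.map_adjoin] at this
    exact Algebra.adjoin_mono Set.subset_union_left this
  have hr : ∀ k, r (f k) ∈ T := by
    intro k
    have : r (f k) ∈ (Algebra.adjoin ℂ G).map r := ⟨f k, hf k, rfl⟩
    rw [AlgHom.map_adjoin] at this
    exact Algebra.adjoin_mono Set.subset_union_right this
  let δ : ι → T := fun k => ⟨l (f k) - r (f k), T.sub_mem (hl k) (hr k)⟩
  have hfg : (Submodule.span T (Set.range δ)).FG := IsNoetherian.noetherian _
  obtain ⟨s, hs1, hs2⟩ := (Submodule.fg_span_iff_fg_span_finset_subset _).mp hfg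
  have hch : ∀ a : s, ∃ k, δ k = a := fun a => hs1 a.2
  choose c hc using hch
  refine ⟨Finset.univ.image c, fun x y h k => ?_⟩
  have hk : δ k ∈ Submodule.span T (s : Set T) := by
    rw [← hs2]; exact Submodule.subset_span ⟨k, rfl⟩
  have key : ∀ a ∈ Submodule.span T (s : Set T), (a : Ω × Ω → ℂ) (x, y) = 0 := by
    intro a ha
    induction ha using Submodule.span_induction with
    | mem a ha =>
      have h1 := hc ⟨a, ha⟩
      have h2 := h (c ⟨a, ha⟩) (Finset.mem_image_of_mem _ (Finset.mem_univ _))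
      simp only at h1
      rw [← h1]
      simp [δ, l, r, h2]
    | zero => rfl
    | add a b _ _ ha hb => simp [ha, hb]
    | smul a b _ hb => simp [hb]
  have := key _ hk
  simpa [δ, l, r, sub_eq_zero] using this

/-- the span of the monomial functions -/
noncomputable def polys (g : ℕ) : Submodule ℂ ((Fin g → ℤ) → ℂ) :=
  Submodule.span ℂ (Set.range mono)

theorem polys_mul_coord {g : ℕ} {P : (Fin g → ℤ) → ℂ} (hP : P ∈ polys g) (i : Fin g) :
    (fun n => P n * (n i : ℂ)) ∈ polys g := by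
  induction hP using Submodule.span_induction with
  | mem a ha =>
    obtain ⟨α, rfl⟩ := ha
    refine Submodule.subset_span ⟨α + Pi.single i 1, ?_⟩
    funext n
    rw [mono_add, mono_single, pow_one]
  | zero =>
    convert (polys g).zero_mem using 1
    funext n; simp
  | add a b _ _ ha hb =>
    have := (polys g).add_mem ha hb
    convert this using 1
    funext n; simp [add_mul]
  | smul a b _ hb =>
    have := (polys g).smul_mem a hb
    convert this using 1
    funext n; simp [mul_assoc]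

theorem polys_mul_quad {g : ℕ} {P : (Fin g → ℤ) → ℂ} (hP : P ∈ polys g) (i : Fin g) (a b : ℂ) :
    (fun n => P n * (1 - ((n i : ℂ) - a) ^ 2 * b)) ∈ polys g := by
  have h1 := polys_mul_coord hP i
  have h2 := polys_mul_coord h1 i
  have := (polys g).add_mem ((polys g).smul_mem (1 - a ^ 2 * b) hP)
    ((polys g).add_mem ((polys g).smul_mem (2 * a * b) h1) ((polys g).smul_mem (-b) h2))
  convert this using 1
  funext n; simp; ring

theorem polys_prod {g : ℕ} {κ : Type} (s : Finset κ) (i : κ → Fin g) (a b : κ → ℂ) :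
    (fun n : Fin g → ℤ => ∏ k ∈ s, (1 - ((n (i k) : ℂ) - a k) ^ 2 * b k)) ∈ polys g := by
  classical
  induction s using Finset.induction_on with
  | empty => exact Submodule.subset_span ⟨0, by funext n; simp⟩
  | insert k s hk ih =>
    have := polys_mul_quad ih (i k) (a k) (b k)
    convert this using 1
    funext n
    rw [Finset.prod_insert hk, mul_comm]

theorem polys_sum_zero {g : ℕ} {δ : (Fin g → ℤ) → ℂ} (hδ : Decay δ)
    (h : ∀ α, ∑' n, mono α n * δ n = 0) {P : (Fin g → ℤ) → ℂ} (hP : P ∈ polys g) :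
    Summable (fun n => P n * δ n) ∧ ∑' n, P n * δ n = 0 := by
  induction hP using Submodule.span_induction with
  | mem a ha =>
    obtain ⟨α, rfl⟩ := ha
    exact ⟨(hδ.summable_mono α).of_norm, h α⟩
  | zero => simp [summable_zero]
  | add a b _ _ ha hb =>
    simp only [Pi.add_apply, add_mul]
    exact ⟨ha.1.add hb.1, by rw [ha.1.tsum_add hb.1, ha.2, hb.2, add_zero]⟩
  | smul a b _ hb =>
    simp only [Pi.smul_apply, smul_eq_mul, mul_assoc]
    exact ⟨hb.1.mul_left a, by rw [tsum_mul_left, hb.2, mul_zero]⟩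

/-- truncated product for `sin (π x) / (π x)` -/
noncomputable def q (K : ℕ) (x : ℤ) : ℂ :=
  ∏ k ∈ Finset.range K, (1 - (x : ℂ) ^ 2 * (((k : ℂ) + 1) ^ 2)⁻¹)

theorem q_zero (K : ℕ) : q K 0 = 1 := by simp [q]

theorem q_vanish {K : ℕ} {x : ℤ} (hx : x ≠ 0) (hK : x.natAbs ≤ K) : q K x = 0 := by
  have h1 : 1 ≤ x.natAbs := Int.natAbs_pos.mpr hx
  refine Finset.prod_eq_zero (i := x.natAbs - 1) (Finset.mem_range.mpr (by omega)) ?_
  have h2 : (((x.natAbs - 1 : ℕ) : ℂ) + 1) ^ 2 = (x : ℂ) ^ 2 := by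
    have : ((x.natAbs - 1 : ℕ) : ℂ) + 1 = (x.natAbs : ℂ) := by
      rw [Nat.cast_sub h1]; simp
    rw [this]
    have := congrArg (Int.cast : ℤ → ℂ) (Int.natAbs_sq x)
    simpa only [Int.cast_pow, Int.cast_natCast] using this
  rw [h2, mul_inv_cancel₀, sub_self]
  exact pow_ne_zero _ (Int.cast_ne_zero.mpr hx)

theorem q_bound (K : ℕ) (x : ℤ) : ‖q K x‖ ≤ Real.exp (2 * |(x : ℝ)|) := by
  by_cases hx : x = 0
  · subst hx; simp [q_zero]
  by_cases hK : x.natAbs ≤ K
  · rw [q_vanish hx hK]; simp; positivity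
  have habs : |(x : ℝ)| = (x.natAbs : ℝ) := by
    rw [Nat.cast_natAbs]; simp
  have h1 : ‖q K x‖ ≤ ∏ k ∈ Finset.range K, (|(x : ℝ)| / ((k : ℝ) + 1)) ^ 2 := by
    rw [q, norm_prod]
    refine Finset.prod_le_prod (fun _ _ => norm_nonneg _) (fun k hk => ?_)
    have hk' : (k : ℝ) + 1 ≤ |(x : ℝ)| := by
      rw [habs]
      have := Finset.mem_range.mp hk
      exact_mod_cast (by omega : k + 1 ≤ x.natAbs)
    have hpos : (0 : ℝ) < (k : ℝ) + 1 := by positivity
    have e : (1 - (x : ℂ) ^ 2 * (((k : ℂ) + 1) ^ 2)⁻¹) =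
        ((1 - (|(x : ℝ)| / ((k : ℝ) + 1)) ^ 2 : ℝ) : ℂ) := by
      rw [div_pow, sq_abs]; push_cast; rw [div_eq_mul_inv]
    rw [e, Complex.norm_real, Real.norm_eq_abs]
    have : 1 ≤ (|(x : ℝ)| / ((k : ℝ) + 1)) ^ 2 :=
      one_le_pow₀ ((one_le_div hpos).mpr hk')
    rw [abs_le]; constructor <;> linarith
  have h2 : ∏ k ∈ Finset.range K, (|(x : ℝ)| / ((k : ℝ) + 1)) ^ 2 =
      (|(x : ℝ)| ^ K / (K.factorial : ℝ)) ^ 2 := by
    rw [Finset.prod_pow, Finset.prod_div_distrib, Finset.prod_const, Finset.card_range,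
      ← Finset.prod_range_add_one_eq_factorial]
    push_cast; rfl
  have h3 := Real.pow_div_factorial_le_exp _ (abs_nonneg (x : ℝ)) K
  rw [h2] at h1
  refine h1.trans ?_
  rw [two_mul, Real.exp_add, sq]
  exact mul_le_mul h3 h3 (by positivity) (by positivity)

theorem eq_zero_of_moments {g : ℕ} {δ : (Fin g → ℤ) → ℂ} (hδ : Decay δ)
    (h : ∀ α, ∑' n, mono α n * δ n = 0) (n0 : Fin g → ℤ) : δ n0 = 0 := by
  classical
  let P : ℕ → (Fin g → ℤ) → ℂ := fun K n => ∏ i, q K (n i - n0 i)
  have hP : ∀ K, P K ∈ polys g := by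
    intro K
    have := polys_prod ((Finset.univ : Finset (Fin g)) ×ˢ Finset.range K) (fun p => p.1)
      (fun p => (n0 p.1 : ℂ)) (fun p => (((p.2 : ℂ) + 1) ^ 2)⁻¹)
    convert this using 1
    funext n
    rw [Finset.prod_product]
    simp [P, q]
  have h0 : ∀ K, ∑' n, P K n * δ n = 0 := fun K => (polys_sum_zero hδ h (hP K)).2
  have lim : Tendsto (fun K => ∑' n, P K n * δ n) atTop
      (𝓝 (∑' n, if n = n0 then δ n0 else 0)) := by
    refine tendsto_tsum_of_dominated_convergence
      ((hδ 2).mul_left (Real.exp (2 * sz n0))) (fun n => ?_) (Eventually.of_forall ?_)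
    · split_ifs with hn
      · subst hn
        simp [P, q_zero]
      · obtain ⟨i, hi⟩ := Function.ne_iff.mp hn
        refine tendsto_const_nhds.congr' ?_
        filter_upwards [eventually_ge_atTop (n i - n0 i).natAbs] with K hK
        have : P K n = 0 := Finset.prod_eq_zero (Finset.mem_univ i) (q_vanish (sub_ne_zero.mpr hi) hK)
        rw [this, zero_mul]
    · intro K n
      have : ‖P K n‖ ≤ Real.exp (2 * sz n0) * Real.exp (2 * sz n) := by
        simp only [P]
        rw [norm_prod, ← Real.exp_add]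
        refine (Finset.prod_le_prod (fun _ _ => norm_nonneg _) (fun i _ => q_bound K _)).trans ?_
        rw [← Real.exp_sum]
        apply Real.exp_le_exp.mpr
        simp only [sz, Finset.mul_sum, ← Finset.sum_add_distrib]
        refine Finset.sum_le_sum (fun i _ => ?_)
        push_cast
        have := abs_sub (n i : ℝ) (n0 i : ℝ)
        linarith
      rw [norm_mul]
      calc ‖P K n‖ * ‖δ n‖ ≤ (Real.exp (2 * sz n0) * Real.exp (2 * sz n)) * ‖δ n‖ :=
            mul_le_mul_of_nonneg_right this (norm_nonneg _)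
        _ = _ := by ring
  simp only [h0, tsum_ite_eq] at lim
  exact (tendsto_nhds_unique tendsto_const_nhds lim).symm

end Pool.Agent.MP_e16cda_ag

end

-- part MP_e16cda_ag.Hirota
section

set_option autoImplicit false

namespace Pool.Agent.MP_e16cda_ag

open scoped Real

abbrev Z2 (g : ℕ) := (Fin g → ℤ) × (Fin g → ℤ)

/-- polynomial functions of bidegree at most `(s, t)` -/
noncomputable def U (g s t : ℕ) : Submodule ℂ (Z2 g → ℂ) :=
  Submodule.span ℂ {P | ∃ a b : Fin g → ℕ, ∑ i, a i ≤ s ∧ ∑ i, b i ≤ t ∧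
    P = fun x => mono a x.1 * mono b x.2}

theorem U_mono {g s t s' t' : ℕ} (hs : s ≤ s') (ht : t ≤ t') {P : Z2 g → ℂ} (h : P ∈ U g s t) :
    P ∈ U g s' t' := by
  refine Submodule.span_mono ?_ h
  rintro P ⟨a, b, h1, h2, rfl⟩
  exact ⟨a, b, h1.trans hs, h2.trans ht, rfl⟩

theorem U_one (g : ℕ) : (1 : Z2 g → ℂ) ∈ U g 0 0 :=
  Submodule.subset_span ⟨0, 0, by simp, by simp, by funext x; simp⟩

theorem U_mul {g s t s' t' : ℕ} {P Q : Z2 g → ℂ} (hP : P ∈ U g s t) (hQ : Q ∈ U g s' t') :
    P * Q ∈ U g (s + s') (t + t') := by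
  induction hP using Submodule.span_induction with
  | mem P h =>
    obtain ⟨a, b, h1, h2, rfl⟩ := h
    induction hQ using Submodule.span_induction with
    | mem Q h =>
      obtain ⟨a', b', h1', h2', rfl⟩ := h
      refine Submodule.subset_span ⟨a + a', b + b', ?_, ?_, ?_⟩
      · simp only [Pi.add_apply, Finset.sum_add_distrib]; omega
      · simp only [Pi.add_apply, Finset.sum_add_distrib]; omega
      · funext x; simp only [Pi.mul_apply, mono_add]; ring
    | zero => simp
    | add a b _ _ ha hb => rw [mul_add]; exact Submodule.add_mem _ ha hb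
    | smul a b _ hb => rw [mul_smul_comm]; exact Submodule.smul_mem _ _ hb
  | zero => simp
  | add a b _ _ ha hb => rw [add_mul]; exact Submodule.add_mem _ ha hb
  | smul a b _ hb => rw [smul_mul_assoc]; exact Submodule.smul_mem _ _ hb

def cx {g : ℕ} (k : Fin g) : Z2 g → ℂ := fun x => (x.1 k : ℂ)
def cy {g : ℕ} (k : Fin g) : Z2 g → ℂ := fun x => (x.2 k : ℂ)

theorem U_cx {g : ℕ} (k : Fin g) : cx k ∈ U g 1 0 :=
  Submodule.subset_span ⟨Pi.single k 1, 0, by simp, by simp, by
    funext x; simp [cx, mono_single]⟩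

theorem U_cy {g : ℕ} (k : Fin g) : cy k ∈ U g 0 1 :=
  Submodule.subset_span ⟨0, Pi.single k 1, by simp, by simp, by
    funext x; simp [cy, mono_single]⟩

theorem U_lin {g : ℕ} (k : Fin g) (ε : ℂ) : cx k + ε • cy k ∈ U g 1 1 :=
  Submodule.add_mem _ (U_mono le_rfl zero_le_one (U_cx k))
    (Submodule.smul_mem _ _ (U_mono zero_le_one le_rfl (U_cy k)))

theorem U_pow {g s t : ℕ} {P : Z2 g → ℂ} (hP : P ∈ U g s t) (e : ℕ) :
    P ^ e ∈ U g (e * s) (e * t) := by
  induction e with
  | zero => simpa using U_one g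
  | succ e ih => rw [pow_succ, Nat.succ_mul, Nat.succ_mul]; exact U_mul ih hP

theorem U_prod {g : ℕ} (β : Fin g → ℕ) (s : Finset (Fin g)) :
    ∏ k ∈ s, (cx k + (1 : ℂ) • cy k) ^ β k ∈ U g (∑ k ∈ s, β k) (∑ k ∈ s, β k) := by
  classical
  induction s using Finset.induction_on with
  | empty => simpa using U_one g
  | insert k s hk ih =>
    rw [Finset.prod_insert hk, Finset.sum_insert hk]
    have := U_mul (U_pow (U_lin k 1) (β k)) ih
    simpa using this

/-- `P = X + Y +` mixed terms -/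
def Nice {g : ℕ} (N : ℕ) (P X Y : Z2 g → ℂ) : Prop :=
  X ∈ U g (N + 1) 0 ∧ Y ∈ U g 0 (N + 1) ∧ P - X - Y ∈ U g N N

theorem Nice.step {g N : ℕ} {P X Y : Z2 g → ℂ} (h : Nice N P X Y) (k : Fin g) (ε : ℂ) :
    Nice (N + 1) (P * (cx k + ε • cy k)) (X * cx k) (Y * (ε • cy k)) := by
  obtain ⟨h1, h2, h3⟩ := h
  have hy : ε • cy k ∈ U g 0 1 := Submodule.smul_mem _ _ (U_cy k)
  refine ⟨U_mono (by omega) (by omega) (U_mul h1 (U_cx k)),
    U_mono (by omega) (by omega) (U_mul h2 hy), ?_⟩
  have e : P * (cx k + ε • cy k) - X * cx k - Y * (ε • cy k) =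
      (P - X - Y) * (cx k + ε • cy k) + (X * (ε • cy k) + Y * cx k) := by ring
  rw [e]
  refine Submodule.add_mem _ (U_mul h3 (U_lin k ε)) (Submodule.add_mem _ ?_ ?_)
  · exact U_mono (by omega) (by omega) (U_mul h1 hy)
  · exact U_mono (by omega) (by omega) (U_mul h2 (U_cx k))

theorem Nice.pow {g N : ℕ} {P X Y : Z2 g → ℂ} (h : Nice N P X Y) (k : Fin g) (ε : ℂ) (e : ℕ) :
    Nice (N + e) (P * (cx k + ε • cy k) ^ e) (X * cx k ^ e) (Y * (ε • cy k) ^ e) := by
  induction e with
  | zero => simpa using h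
  | succ e ih =>
    have := ih.step k ε
    simpa only [pow_succ, mul_assoc, add_assoc] using this

theorem Nice.prod {g N : ℕ} {P X Y : Z2 g → ℂ} (h : Nice N P X Y) (β : Fin g → ℕ)
    (s : Finset (Fin g)) :
    Nice (N + ∑ k ∈ s, β k) (P * ∏ k ∈ s, (cx k + (1 : ℂ) • cy k) ^ β k)
      (X * ∏ k ∈ s, cx k ^ β k) (Y * ∏ k ∈ s, ((1 : ℂ) • cy k) ^ β k) := by
  classical
  induction s using Finset.induction_on with
  | empty => simpa using h
  | insert k s hk ih =>
    have := ih.pow k 1 (β k)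
    rw [Finset.prod_insert hk, Finset.prod_insert hk, Finset.prod_insert hk, Finset.sum_insert hk]
    convert this using 1 <;> ring

theorem Nice.base {g : ℕ} (k : Fin g) (ε : ℂ) : Nice 0 (cx k + ε • cy k) (cx k) (ε • cy k) :=
  ⟨U_cx k, Submodule.smul_mem _ _ (U_cy k), by simp⟩

/-- the bilinear test function `(x + y)^β (x_i - y_i)^(2j)` -/
noncomputable def test {g : ℕ} (β : Fin g → ℕ) (i : Fin g) (j : ℕ) : Z2 g → ℂ :=
  fun x => mono β (x.1 + x.2) * ((x.1 i : ℂ) - (x.2 i : ℂ)) ^ (2 * j)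

theorem test_eq {g : ℕ} (β : Fin g → ℕ) (i : Fin g) (j : ℕ) :
    test β i j = (cx i + (-1 : ℂ) • cy i) ^ (2 * j) * ∏ k, (cx k + (1 : ℂ) • cy k) ^ β k := by
  funext x
  simp [test, mono, cx, cy, mul_comm, sub_eq_add_neg]

theorem test_mem {g : ℕ} (β : Fin g → ℕ) (i : Fin g) (j : ℕ) :
    test β i j ∈ U g (2 * j + ∑ k, β k) (2 * j + ∑ k, β k) := by
  rw [test_eq]
  simpa using U_mul (U_pow (U_lin i (-1)) (2 * j)) (U_prod β Finset.univ)

theorem test_lead {g : ℕ} (β : Fin g → ℕ) (i : Fin g) (j : ℕ) :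
    test β i (j + 1) - (fun x => mono (β + Pi.single i (2 * (j + 1))) x.1 * mono 0 x.2)
      - (fun x => mono 0 x.1 * mono (β + Pi.single i (2 * (j + 1))) x.2) ∈
      U g (2 * j + 1 + ∑ k, β k) (2 * j + 1 + ∑ k, β k) := by
  have := (((Nice.base i (-1)).pow i (-1) (2 * j + 1)).prod β Finset.univ).2.2
  rw [zero_add] at this
  have e1 : test β i (j + 1) = (cx i + (-1 : ℂ) • cy i) * (cx i + (-1 : ℂ) • cy i) ^ (2 * j + 1) *
      ∏ k, (cx k + (1 : ℂ) • cy k) ^ β k := by rw [test_eq]; ring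
  have e2 : (fun x : Z2 g => mono (β + Pi.single i (2 * (j + 1))) x.1 * mono 0 x.2) =
      cx i * cx i ^ (2 * j + 1) * ∏ k, cx k ^ β k := by
    funext x
    simp only [mono_add, mono_single, mono_zero]
    simp [mono, cx]; ring
  have e3 : (fun x : Z2 g => mono 0 x.1 * mono (β + Pi.single i (2 * (j + 1))) x.2) =
      (-1 : ℂ) • cy i * ((-1 : ℂ) • cy i) ^ (2 * j + 1) * ∏ k, ((1 : ℂ) • cy k) ^ β k := by
    funext x
    simp only [mono_add, mono_single, mono_zero]
    have ho := Odd.neg_pow (n := 2 * j + 1) ⟨j, rfl⟩ (x.2 i : ℂ)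
    simp [mono, cy, ho]; ring
  rw [e1, e2, e3]
  exact this

/-- the bilinear functional -/
noncomputable def Lam {g : ℕ} (p : (Fin g → ℤ) → ℂ) (P : Z2 g → ℂ) : ℂ :=
  ∑' x : Z2 g, P x * (p x.1 * p x.2)

/-- moment of an arbitrary weight function -/
noncomputable def mom {g : ℕ} (p : (Fin g → ℤ) → ℂ) (α : Fin g → ℕ) : ℂ := ∑' n, mono α n * p n

theorem summable_U {g s t : ℕ} {p : (Fin g → ℤ) → ℂ} (hp : Decay p) {P : Z2 g → ℂ}
    (hP : P ∈ U g s t) : Summable (fun x : Z2 g => P x * (p x.1 * p x.2)) := by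
  induction hP using Submodule.span_induction with
  | mem P h =>
    obtain ⟨a, b, -, -, rfl⟩ := h
    refine (summable_mul_of_summable_norm (hp.summable_mono a) (hp.summable_mono b)).congr ?_
    intro x; ring
  | zero => simp [summable_zero]
  | add a b _ _ ha hb => simpa only [Pi.add_apply, add_mul] using ha.add hb
  | smul a b _ hb => simpa only [Pi.smul_apply, smul_eq_mul, mul_assoc] using hb.mul_left a

theorem Lam_mono {g : ℕ} {p : (Fin g → ℤ) → ℂ} (hp : Decay p) (a b : Fin g → ℕ) :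
    Lam p (fun x => mono a x.1 * mono b x.2) = mom p a * mom p b := by
  rw [mom, mom, tsum_mul_tsum_of_summable_norm (hp.summable_mono a) (hp.summable_mono b)]
  exact tsum_congr (fun x => by ring)

theorem Lam_add {g s t : ℕ} {p : (Fin g → ℤ) → ℂ} (hp : Decay p) {P Q : Z2 g → ℂ}
    (hP : P ∈ U g s t) (hQ : Q ∈ U g s t) : Lam p (P + Q) = Lam p P + Lam p Q := by
  simp only [Lam, Pi.add_apply, add_mul]
  exact (summable_U hp hP).tsum_add (summable_U hp hQ)

theorem Lam_smul {g : ℕ} (p : (Fin g → ℤ) → ℂ) (c : ℂ) (P : Z2 g → ℂ) :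
    Lam p (c • P) = c * Lam p P := by
  simp only [Lam, Pi.smul_apply, smul_eq_mul, mul_assoc]
  exact tsum_mul_left

/-- the addition formula in multiplicative form -/
def Addn {g : ℕ} (p : (Fin g → ℤ) → ℂ) : Prop :=
  ∀ a σ : Fin g → ℤ, ∃ κ : ℂ, ∀ b, p (b + (a + σ)) * p (a - b) = κ * (p (b + σ) * p (-b))

theorem addn_gauss {g : ℕ} (u : Fin g → ℂ) (B : Matrix (Fin g) (Fin g) ℂ) : Addn (gauss u B) := by
  intro a σ
  refine ⟨weight u B a * weight u B (a + σ) / weight u B σ, fun b => ?_⟩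
  have h0 : weight u B σ ≠ 0 := Complex.exp_ne_zero _
  have key : weight u B (b + (a + σ)) * weight u B (a - b) * weight u B σ =
      weight u B a * weight u B (a + σ) * (weight u B (b + σ) * weight u B (-b)) := by
    simp only [weight, ← Complex.exp_add]
    congr 1
    simp only [Pi.add_apply, Pi.sub_apply, Pi.neg_apply]
    push_cast
    simp only [add_mul, mul_add, sub_mul, mul_sub, neg_mul, mul_neg, Finset.sum_add_distrib,
      Finset.sum_sub_distrib, Finset.sum_neg_distrib]
    ring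
  simp only [gauss]
  rw [div_mul_div_comm, div_mul_div_comm, ← mul_div_assoc, div_mul_eq_mul_div, ← key,
    mul_div_cancel_right₀ _ h0]

def b2z {g : ℕ} (σ : Fin g → Bool) : Fin g → ℤ := fun i => if σ i then 1 else 0

theorem relation {g : ℕ} {p : (Fin g → ℤ) → ℂ} (hp : Decay p) (ha : Addn p) (i : Fin g) :
    ∃ m ≤ 2 ^ g, ∃ c : ℕ → ℂ, ∀ β : Fin g → ℕ,
      Lam p (test β i m) = ∑ j ∈ Finset.range m, c j * Lam p (test β i j) := by
  classical
  let T : (Fin g → Bool) → ℕ → (Fin g → ℤ) → ℂ := fun σ j b =>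
    test 0 i j (b + b2z σ, -b) * (p (b + b2z σ) * p (-b))
  have hT : ∀ σ j, Summable (T σ j) := by
    intro σ j
    have hinj : Function.Injective (fun b : Fin g → ℤ => ((b + b2z σ, -b) : Z2 g)) := by
      intro b b' h
      simpa using congrArg Prod.snd h
    exact (summable_U hp (test_mem 0 i j)).comp_injective hinj
  let A : ℕ → (Fin g → Bool) → ℂ := fun j σ => ∑' b, T σ j b
  have hdep : ¬ LinearIndependent ℂ (fun j : Fin (2 ^ g + 1) => A j) := by
    intro h
    have := h.fintype_card_le_finrank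
    simp at this
  obtain ⟨v, hv, j0, hj0⟩ := Fintype.not_linearIndependent_iff.mp hdep
  let V : ℕ → ℂ := fun j => if h : j < 2 ^ g + 1 then v ⟨j, h⟩ else 0
  have hV : ∑ j ∈ Finset.range (2 ^ g + 1), V j • A j = 0 := by
    rw [← Fin.sum_univ_eq_sum_range (fun j => V j • A j), ← hv]
    refine Finset.sum_congr rfl (fun j _ => ?_)
    simp only [V, dif_pos j.2]
  let m := Nat.findGreatest (fun j => V j ≠ 0) (2 ^ g)
  have hm1 : m ≤ 2 ^ g := Nat.findGreatest_le _
  have hm2 : V m ≠ 0 :=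
    Nat.findGreatest_spec (P := fun j => V j ≠ 0) (m := j0) (by have := j0.2; omega)
      (by simpa only [V, dif_pos j0.2] using hj0)
  have hm3 : ∀ j, m < j → j ≤ 2 ^ g → V j = 0 := fun j h1 h2 =>
    not_not.mp (Nat.findGreatest_is_greatest h1 h2)
  have hV' : ∑ j ∈ Finset.range (m + 1), V j • A j = 0 := by
    rw [← hV]
    refine Finset.sum_subset (Finset.range_subset_range.mpr (by omega)) (fun j h1 h2 => ?_)
    rw [hm3 j (by simpa using h2) (by have := Finset.mem_range.mp h1; omega), zero_smul]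
  have main : ∀ β, ∑ j ∈ Finset.range (m + 1), V j * Lam p (test β i j) = 0 := by
    intro β
    let e : Z2 g ≃ Z2 g :=
      { toFun := fun x => (x.2, x.1 - x.2)
        invFun := fun x => (x.1 + x.2, x.1)
        left_inv := fun x => by simp
        right_inv := fun x => by simp }
    have hs : ∀ j, Summable (fun x : Z2 g => test β i j (e x) * (p (e x).1 * p (e x).2)) :=
      fun j => (e.summable_iff (f := fun x : Z2 g => test β i j x * (p x.1 * p x.2))).mpr
        (summable_U hp (test_mem β i j))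
    have h1 : ∀ j, Lam p (test β i j) =
        ∑' s, ∑' n, test β i j (n, s - n) * (p n * p (s - n)) := by
      intro j
      rw [Lam, ← e.tsum_eq, (hs j).tsum_prod]
      rfl
    have h2 : ∀ s : Fin g → ℤ, ∃ (κ : ℂ) (σ : Fin g → Bool), ∀ j,
        ∑' n, test β i j (n, s - n) * (p n * p (s - n)) = κ * A j σ := by
      intro s
      let a : Fin g → ℤ := fun k => s k / 2
      let σ : Fin g → Bool := fun k => decide (s k % 2 = 1)
      have hsa : s = a + a + b2z σ := by
        funext k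
        simp only [Pi.add_apply, a, b2z, σ, decide_eq_true_eq]
        split_ifs <;> omega
      obtain ⟨κ, hκ⟩ := ha a (b2z σ)
      refine ⟨mono β s * κ, σ, fun j => ?_⟩
      rw [← (Equiv.addRight (a + b2z σ)).tsum_eq, ← tsum_mul_left]
      refine tsum_congr (fun b => ?_)
      have e1 : s - (b + (a + b2z σ)) = a - b := by rw [hsa]; ring
      simp only [Equiv.coe_addRight, e1, hκ, T, test]
      have e2 : b + (a + b2z σ) + (a - b) = s := by rw [hsa]; ring
      rw [e2]
      simp only [mono_zero, Pi.add_apply, Pi.sub_apply, Pi.neg_apply]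
      push_cast
      ring
    choose κ σ hκ using h2
    have h3 : ∀ j, Summable (fun s => V j * (κ s * A j (σ s))) := by
      intro j
      have := (hs j).prod
      refine (this.congr (fun s => ?_)).mul_left _
      exact hκ s j
    simp only [h1, hκ, ← tsum_mul_left]
    rw [← Summable.tsum_finsetSum (fun j _ => h3 j)]
    have h4 : ∀ s, ∑ j ∈ Finset.range (m + 1), V j * (κ s * A j (σ s)) = 0 := by
      intro s
      have := congrFun hV' (σ s)
      simp only [Finset.sum_apply, Pi.smul_apply, smul_eq_mul, Pi.zero_apply] at this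
      calc _ = κ s * ∑ j ∈ Finset.range (m + 1), V j * A j (σ s) := by
            rw [Finset.mul_sum]; exact Finset.sum_congr rfl (fun j _ => by ring)
        _ = 0 := by rw [this, mul_zero]
    simp [h4]
  refine ⟨m, hm1, fun j => -(V j / V m), fun β => ?_⟩
  have := main β
  rw [Finset.sum_range_succ] at this
  have e : ∑ j ∈ Finset.range m, -(V j / V m) * Lam p (test β i j) =
      -(V m)⁻¹ * ∑ j ∈ Finset.range m, V j * Lam p (test β i j) := by
    rw [Finset.mul_sum]; exact Finset.sum_congr rfl (fun j _ => by ring)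
  rw [e, eq_neg_of_add_eq_zero_left this]
  field_simp

end Pool.Agent.MP_e16cda_ag

end

-- part MP_e16cda_ag.Finite
section

set_option autoImplicit false

namespace Pool.Agent.MP_e16cda_ag

theorem Lam_mem {g N : ℕ} {Ω : Type} {p : Ω → (Fin g → ℤ) → ℂ} (hp : ∀ ω, Decay (p ω))
    (S : Subalgebra ℂ (Ω → ℂ))
    (hS : ∀ α : Fin g → ℕ, ∑ i, α i ≤ N → (fun ω => mom (p ω) α) ∈ S)
    {P : Z2 g → ℂ} (hP : P ∈ U g N N) : (fun ω => Lam (p ω) P) ∈ S := by
  induction hP using Submodule.span_induction with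
  | mem P h =>
    obtain ⟨a, b, h1, h2, rfl⟩ := h
    have := S.mul_mem (hS a h1) (hS b h2)
    convert this using 1
    funext ω
    rw [Lam_mono (hp ω)]; rfl
  | zero =>
    convert S.zero_mem using 1
    funext ω; simp [Lam]
  | add a b ha' hb' ha hb =>
    convert S.add_mem ha hb using 1
    funext ω
    rw [Lam_add (hp ω) ha' hb']; rfl
  | smul a b _ hb =>
    convert S.smul_mem hb a using 1
    funext ω
    rw [Lam_smul]; rfl

theorem mom_fg {g : ℕ} {Ω : Type} {p : Ω → (Fin g → ℤ) → ℂ} (hp : ∀ ω, Decay (p ω))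
    (ha : ∀ ω, Addn (p ω)) (h1 : ∀ ω, mom (p ω) 0 = 1) :
    ∃ G : Set (Ω → ℂ), G.Finite ∧ ∀ α, (fun ω => mom (p ω) α) ∈ Algebra.adjoin ℂ G := by
  classical
  choose m hm c hc using fun ω i => relation (hp ω) (ha ω) i
  have hm0 : ∀ ω i, m ω i ≠ 0 := by
    intro ω i h0
    have := hc ω i 0
    rw [h0] at this
    have e : test (0 : Fin g → ℕ) i 0 = fun x => mono 0 x.1 * mono 0 x.2 := by
      funext x; simp [test]
    rw [e, Lam_mono (hp ω), h1] at this
    simp at this
  let r := 2 ^ g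
  let G1 : Set (Ω → ℂ) := Set.range (fun α : Fin g → Fin (2 * r) =>
    fun ω => mom (p ω) (fun i => α i))
  let G2 : Set (Ω → ℂ) := Set.range (fun ij : Fin g × Fin r => fun ω => c ω ij.1 ij.2)
  let G3 : Set (Ω → ℂ) := Set.range (fun ij : Fin g × Fin r =>
    fun ω => if m ω ij.1 = ij.2 + 1 then 1 else 0)
  refine ⟨G1 ∪ G2 ∪ G3, ((Set.finite_range _).union (Set.finite_range _)).union
    (Set.finite_range _), ?_⟩
  set S := Algebra.adjoin ℂ (G1 ∪ G2 ∪ G3) with hSdef
  have key : ∀ N, ∀ α : Fin g → ℕ, ∑ i, α i < N → (fun ω => mom (p ω) α) ∈ S := by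
    intro N
    induction N with
    | zero => intro α h; omega
    | succ N ih =>
      intro α hα
      by_cases hsm : ∀ i, α i < 2 * r
      · exact Algebra.subset_adjoin (Or.inl (Or.inl ⟨fun i => ⟨α i, hsm i⟩, rfl⟩))
      push Not at hsm
      obtain ⟨i, hi⟩ := hsm
      let E : ℕ → Ω → ℂ := fun k ω => if m ω i = k + 1 then 1 else 0
      have hE : ∀ k < r, E k ∈ S := fun k hk =>
        Algebra.subset_adjoin (Or.inr ⟨(i, ⟨k, hk⟩), rfl⟩)
      have hC : ∀ k < r, (fun ω => c ω i k) ∈ S := fun k hk =>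
        Algebra.subset_adjoin (Or.inl (Or.inr ⟨(i, ⟨k, hk⟩), rfl⟩))
      have piece : ∀ k < r, E k * (fun ω => mom (p ω) α) ∈ S := by
        intro k hk
        let β : Fin g → ℕ := α - Pi.single i (2 * (k + 1))
        have hβ : β + Pi.single i (2 * (k + 1)) = α := by
          funext l
          simp only [β, Pi.add_apply, Pi.sub_apply]
          by_cases hl : l = i
          · subst hl; simp only [Pi.single_eq_same]; omega
          · simp [Pi.single_eq_of_ne hl]
        have hdeg : ∑ l, β l + 2 * (k + 1) = ∑ l, α l := by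
          rw [← hβ]; simp [Finset.sum_add_distrib]
        set D := 2 * k + 1 + ∑ l, β l with hD
        have hS' : ∀ γ : Fin g → ℕ, ∑ l, γ l ≤ D → (fun ω => mom (p ω) γ) ∈ S :=
          fun γ hγ => ih γ (by omega)
        have hW := test_lead β i k
        rw [hβ] at hW
        set W := test β i (k + 1) - (fun x : Z2 g => mono α x.1 * mono 0 x.2)
          - (fun x : Z2 g => mono 0 x.1 * mono α x.2) with hWdef
        have m1 : (fun ω => Lam (p ω) W) ∈ S := Lam_mem hp S hS' hW
        have m2 : ∑ j ∈ Finset.range (k + 1),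
            (fun ω => c ω i j) * (fun ω => Lam (p ω) (test β i j)) ∈ S := by
          refine S.sum_mem (fun j hj => S.mul_mem (hC j ?_) (Lam_mem hp S hS' ?_))
          · have := Finset.mem_range.mp hj; omega
          · have := Finset.mem_range.mp hj
            exact U_mono (by omega) (by omega) (test_mem β i j)
        have m3 := S.smul_mem (S.mul_mem (hE k hk) (S.sub_mem m2 m1)) (1 / 2 : ℂ)
        convert m3 using 1
        funext ω
        simp only [Pi.mul_apply, Pi.smul_apply, Pi.sub_apply, Finset.sum_apply, smul_eq_mul, E]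
        split_ifs with hω
        · have r1 := hc ω i β
          rw [hω] at r1
          rw [← r1]
          have e : test β i (k + 1) = W + ((fun x : Z2 g => mono α x.1 * mono 0 x.2)
              + (fun x : Z2 g => mono 0 x.1 * mono α x.2)) := by rw [hWdef]; ring
          have u1 : (fun x : Z2 g => mono α x.1 * mono 0 x.2) ∈ U g (D + 1) (D + 1) :=
            Submodule.subset_span ⟨α, 0, by omega, by simp, rfl⟩
          have u2 : (fun x : Z2 g => mono 0 x.1 * mono α x.2) ∈ U g (D + 1) (D + 1) :=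
            Submodule.subset_span ⟨0, α, by simp, by omega, rfl⟩
          rw [e, Lam_add (hp ω) (U_mono (Nat.le_succ _) (Nat.le_succ _) hW)
            (Submodule.add_mem _ u1 u2), Lam_add (hp ω) u1 u2, Lam_mono (hp ω), Lam_mono (hp ω), h1]
          ring
        · simp
      have tot := S.sum_mem (fun k hk => piece k (Finset.mem_range.mp hk))
      convert tot using 1
      funext ω
      simp only [Finset.sum_apply, Pi.mul_apply, E]
      rw [Finset.sum_eq_single (m ω i - 1)]
      · rw [if_pos (by have := hm0 ω i; omega), one_mul]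
      · intro k _ hk
        rw [if_neg (by omega), zero_mul]
      · intro h
        exfalso
        apply h
        have := hm0 ω i
        have := hm ω i
        exact Finset.mem_range.mpr (by omega)
  exact fun α => key _ α (Nat.lt_succ_self _)

theorem mom_gauss_zero {g : ℕ} (u : Fin g → ℂ) (B : Matrix (Fin g) (Fin g) ℂ)
    (h : theta u B ≠ 0) : mom (gauss u B) 0 = 1 := by
  simp only [mom, mono_zero, one_mul, gauss]
  rw [tsum_div_const]
  exact div_self h

theorem exists_order (g : ℕ) : ∃ d, Determines g d := by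
  classical
  let Ω := {x : (Fin g → ℂ) × Matrix (Fin g) (Fin g) ℂ // InH x.2 ∧ theta x.1 x.2 ≠ 0}
  let p : Ω → (Fin g → ℤ) → ℂ := fun ω => gauss ω.1.1 ω.1.2
  have hp : ∀ ω, Decay (p ω) := fun ω => decay_gauss _ ω.2.1
  obtain ⟨G, hG, hM⟩ := mom_fg hp (fun ω => addn_gauss _ _) (fun ω => mom_gauss_zero _ _ ω.2.2)
  obtain ⟨K, hK⟩ := finite_sep G hG (fun α ω => mom (p ω) α) hM
  refine ⟨K.sup (fun α => ∑ i, α i), fun u u' B B' hB hB' ht ht' h => ?_⟩
  let x : Ω := ⟨(u, B), hB, ht⟩
  let y : Ω := ⟨(u', B'), hB', ht'⟩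
  have all := hK x y (fun α hα => h α (Finset.le_sup (f := fun α : Fin g → ℕ => ∑ i, α i) hα))
  funext n
  have := eq_zero_of_moments ((hp x).sub (hp y)) (fun α => ?_) n
  · exact sub_eq_zero.mp this
  · simp only [mul_sub]
    rw [((hp x).summable_mono α).of_norm.tsum_sub ((hp y).summable_mono α).of_norm]
    exact sub_eq_zero.mpr (all α)

end Pool.Agent.MP_e16cda_ag

end
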